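import Pool.Agent.L7h62.SQ.Stm2

/-! Project SQ, second stage: TWO. -/

set_option autoImplicit false

namespace Pool.Agent.L7h99.SQ

open Module NumberField IsDedekindDomain
open Pool.Agent.TeamU (Over Unr)
open Pool.Agent.L7h62.SQ

theorem exists_over {K H : Type} [Field K] [NumberField K] [Field H] [NumberField H] [Algebra K H]
    (v : HeightOneSpectrum (𝓞 K)) : ∃ P : HeightOneSpectrum (𝓞 H), Over P v := by
  haveI : v.asIdeal.IsMaximal := v.isMaximal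
  obtain ⟨P, hP, hover⟩ :=
    Ideal.exists_maximal_ideal_liesOver_of_isIntegral (S := 𝓞 H) v.asIdeal
  have hc : P.comap (algebraMap (𝓞 K) (𝓞 H)) = v.asIdeal := hover.over.symm
  refine ⟨⟨P, hP.isPrime, ?_⟩, hc⟩
  rintro rfl
  apply v.ne_bot
  rw [← hc]
  apply Ideal.comap_bot_of_injective
  exact FaithfulSMul.algebraMap_injective (𝓞 K) (𝓞 H)

theorem evenAt_of_sq {F : Type} [Field F] [NumberField F] (v : HeightOneSpectrum (𝓞 F)) {y : F}
    (hy : y ≠ 0) : EvenAt v (y ^ 2) := by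
  have h0 : v.valuation F y ≠ 0 := (Valuation.ne_zero_iff _).2 hy
  refine ⟨WithZero.log (v.valuation F y), ?_⟩
  rw [map_pow]
  conv_lhs => rw [← WithZero.exp_log h0]
  rw [← WithZero.exp_nsmul]
  congr 1

section
variable {K H : Type} [Field K] [NumberField K] [Field H] [NumberField H] [Algebra K H]
    [IsAbelianGalois K H]

theorem gal_comm (σ τ : H ≃ₐ[K] H) (x : H) : σ (τ x) = τ (σ x) := by
  have h : σ * τ = τ * σ := mul_comm' σ τ
  exact congrArg (fun f : H ≃ₐ[K] H => f x) h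

theorem fixed_gen (N : Subgroup (H ≃ₐ[K] H)) (hN : N.index = 2) :
    ∃ x : H, x ≠ 0 ∧ (∀ σ ∈ N, σ x = x) ∧ ∀ σ, σ ∉ N → σ x = -x := by
  haveI : FiniteDimensional K H := Module.Finite.of_restrictScalars_finite ℚ K H
  have hne : N ≠ ⊤ := by
    rintro rfl
    rw [Subgroup.index_top] at hN
    omega
  obtain ⟨σ₀, hσ₀⟩ : ∃ σ₀, σ₀ ∉ N := by
    by_contra h
    push Not at h
    exact hne ((Subgroup.eq_top_iff' N).2 h)
  have h1 : σ₀ ∉ (IntermediateField.fixedField N).fixingSubgroup := by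
    rw [IntermediateField.fixingSubgroup_fixedField]
    exact hσ₀
  rw [IntermediateField.mem_fixingSubgroup_iff] at h1
  push Not at h1
  obtain ⟨y, hy, hy0⟩ := h1
  have hyN : ∀ σ ∈ N, σ y = y := fun σ hσ => (IntermediateField.mem_fixedField_iff N y).1 hy σ hσ
  refine ⟨y - σ₀ y, fun h => hy0 (sub_eq_zero.1 h).symm, ?_, ?_⟩
  · intro σ hσ
    rw [map_sub, gal_comm σ σ₀, hyN σ hσ]
  · intro σ hσ
    have h2 : σ * σ₀ ∈ N := by
      rw [Subgroup.mul_mem_iff_of_index_two hN]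
      exact iff_of_false hσ hσ₀
    have h3 : σ₀⁻¹ * σ ∈ N := by
      rw [Subgroup.mul_mem_iff_of_index_two hN]
      exact iff_of_false (fun h => hσ₀ (by simpa using N.inv_mem h)) hσ
    have h4 : σ (σ₀ y) = y := hyN _ h2
    have h5 : σ y = σ₀ y := by
      have h6 : (σ₀⁻¹ * σ) y = y := hyN _ h3
      calc σ y = (σ₀ * (σ₀⁻¹ * σ)) y := by rw [mul_inv_cancel_left]
        _ = σ₀ ((σ₀⁻¹ * σ) y) := rfl
        _ = σ₀ y := by rw [h6]
    rw [map_sub, h4, h5]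
    ring

theorem fixed_mem (z : H) (h : ∀ σ : H ≃ₐ[K] H, σ z = z) : ∃ a : K, algebraMap K H a = z := by
  haveI : FiniteDimensional K H := Module.Finite.of_restrictScalars_finite ℚ K H
  exact (IsGalois.mem_range_algebraMap_iff_fixed z).2 h

end

theorem extend {K H : Type} [Field K] [NumberField K] [Field H] [NumberField H] [Algebra K H]
    (φ : K →+* ℝ) : ∃ g : H →+* ℂ, ∀ a : K, g (algebraMap K H a) = (φ a : ℂ) := by
  letI : Algebra K ℂ := (Complex.ofRealHom.comp φ).toAlgebra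
  haveI : FiniteDimensional K H := Module.Finite.of_restrictScalars_finite ℚ K H
  haveI : Algebra.IsAlgebraic K H := inferInstance
  let g : H →ₐ[K] ℂ := IsAlgClosed.lift
  exact ⟨g.toRingHom, fun a => g.commutes a⟩

theorem s_TWO (_h : S_VAL) : S_TWO := by
  intro K H _ _ _ _ _ _ c hc hSel p hunr N₁ N₂ h1 h2 hc1 hc2
  by_contra hne
  obtain ⟨x₁, hx₁, hf₁, hg₁⟩ := fixed_gen N₁ h1
  obtain ⟨x₂, hx₂, hf₂, hg₂⟩ := fixed_gen N₂ h2
  have hsq : ∀ (N : Subgroup (H ≃ₐ[K] H)) (x : H), (∀ σ ∈ N, σ x = x) → (∀ σ, σ ∉ N → σ x = -x) →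
      ∃ δ : K, algebraMap K H δ = x ^ 2 := by
    intro N x hf hg
    apply fixed_mem
    intro σ
    rw [map_pow]
    by_cases hσ : σ ∈ N
    · rw [hf σ hσ]
    · rw [hg σ hσ, neg_sq]
  obtain ⟨δ₁, hδ₁⟩ := hsq N₁ x₁ hf₁ hg₁
  obtain ⟨δ₂, hδ₂⟩ := hsq N₂ x₂ hf₂ hg₂
  -- positivity
  have hpos : ∀ (x : H) (δ : K), x ≠ 0 → c x = x → algebraMap K H δ = x ^ 2 →
      ∀ φ : K →+* ℝ, 0 < φ δ := by
    intro x δ hx hcx hδ φ
    obtain ⟨g, hg⟩ := extend (H := H) φ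
    have him := hc x hcx g
    have e1 : (φ δ : ℂ) = g x ^ 2 := by rw [← hg, hδ, map_pow]
    have e2 : g x = ((g x).re : ℂ) := by
      apply Complex.ext
      · simp
      · simpa using him
    have e3 : φ δ = (g x).re ^ 2 := by
      rw [e2] at e1
      exact_mod_cast e1
    have e4 : (g x).re ≠ 0 := by
      intro h
      rw [h, Complex.ofReal_zero] at e2
      exact hx ((map_eq_zero g).1 e2)
    rw [e3]
    positivity
  -- evenness outside of p
  have heven : ∀ (x : H) (δ : K), x ≠ 0 → algebraMap K H δ = x ^ 2 →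
      ∀ v : HeightOneSpectrum (𝓞 K), v ≠ p → EvenAt v δ := by
    intro x δ hx hδ v hv
    obtain ⟨P, hP⟩ := exists_over (H := H) v
    rcases hunr P with h | h
    · exfalso
      apply hv
      apply HeightOneSpectrum.ext
      have a1 : P.asIdeal.comap (algebraMap (𝓞 K) (𝓞 H)) = v.asIdeal := hP
      have a2 : P.asIdeal.comap (algebraMap (𝓞 K) (𝓞 H)) = p.asIdeal := h
      rw [← a1, a2]
    · obtain ⟨n, hn⟩ := evenAt_of_sq P hx
      refine ⟨n, ?_⟩
      rw [← h v hP δ, hδ, hn]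
  -- a square root of a fixed square is fixed
  have hroot : ∀ (x : H) (y : K), algebraMap K H (y ^ 2) = x ^ 2 → ∀ σ : H ≃ₐ[K] H, σ x = x := by
    intro x y h σ
    rw [map_pow] at h
    rcases sq_eq_sq_iff_eq_or_eq_neg.1 h with h' | h'
    · rw [← h', AlgEquiv.commutes]
    · have h'' : x = -algebraMap K H y := by rw [h', neg_neg]
      rw [h'', map_neg, AlgEquiv.commutes]
  have hneg : ∀ x : H, x ≠ 0 → x ≠ -x := by
    intro x hx h
    apply hx
    have : (2 : H) * x = 0 := by linear_combination h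
    exact (mul_eq_zero.1 this).resolve_left two_ne_zero
  have hnot : ∀ N : Subgroup (H ≃ₐ[K] H), N.index = 2 → ∃ σ, σ ∉ N := by
    intro N hN
    by_contra h
    push Not at h
    rw [(Subgroup.eq_top_iff' N).2 h, Subgroup.index_top] at hN
    omega
  -- odd at p
  have hodd : ∀ (N : Subgroup (H ≃ₐ[K] H)) (x : H) (δ : K), N.index = 2 → x ≠ 0 →
      (∀ σ ∈ N, σ x = x) → (∀ σ, σ ∉ N → σ x = -x) → c ∈ N → algebraMap K H δ = x ^ 2 →
      ¬ EvenAt p δ := by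
    intro N x δ hN hx hf hg hcN hδ hev
    have hδ0 : δ ≠ 0 := by
      rintro rfl
      rw [map_zero] at hδ
      exact hx (pow_eq_zero_iff two_ne_zero |>.1 hδ.symm)
    obtain ⟨y, hy⟩ := hSel δ hδ0 (hpos x δ hx (hf c hcN) hδ) (fun v => by
      by_cases hv : v = p
      · rw [hv]; exact hev
      · exact heven x δ hx hδ v hv)
    obtain ⟨σ, hσ⟩ := hnot N hN
    have e1 := hroot x y (by rw [hy, hδ]) σ
    rw [hg σ hσ] at e1
    exact hneg x hx e1.symm
  have ho₁ := hodd N₁ x₁ δ₁ h1 hx₁ hf₁ hg₁ hc1 hδ₁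
  have ho₂ := hodd N₂ x₂ δ₂ h2 hx₂ hf₂ hg₂ hc2 hδ₂
  have hx12 : x₁ * x₂ ≠ 0 := mul_ne_zero hx₁ hx₂
  have hδ12 : algebraMap K H (δ₁ * δ₂) = (x₁ * x₂) ^ 2 := by
    rw [map_mul, hδ₁, hδ₂, mul_pow]
  have hδ10 : δ₁ ≠ 0 := by
    rintro rfl
    rw [map_zero] at hδ₁
    exact hx₁ (pow_eq_zero_iff two_ne_zero |>.1 hδ₁.symm)
  have hδ20 : δ₂ ≠ 0 := by
    rintro rfl
    rw [map_zero] at hδ₂
    exact hx₂ (pow_eq_zero_iff two_ne_zero |>.1 hδ₂.symm)
  have hcx : c (x₁ * x₂) = x₁ * x₂ := by rw [map_mul, hf₁ c hc1, hf₂ c hc2]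
  have hevp : EvenAt p (δ₁ * δ₂) := by
    have hv1 : p.valuation K δ₁ ≠ 0 := (Valuation.ne_zero_iff _).2 hδ10
    have hv2 : p.valuation K δ₂ ≠ 0 := (Valuation.ne_zero_iff _).2 hδ20
    set n₁ := WithZero.log (p.valuation K δ₁) with hn₁
    set n₂ := WithZero.log (p.valuation K δ₂) with hn₂
    have hw1 : p.valuation K δ₁ = WithZero.exp n₁ := (WithZero.exp_log hv1).symm
    have hw2 : p.valuation K δ₂ = WithZero.exp n₂ := (WithZero.exp_log hv2).symm
    have o1 : Odd n₁ := by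
      rw [← Int.not_even_iff_odd]
      rintro ⟨k, hk⟩
      exact ho₁ ⟨k, by rw [hw1, hk, two_mul]⟩
    have o2 : Odd n₂ := by
      rw [← Int.not_even_iff_odd]
      rintro ⟨k, hk⟩
      exact ho₂ ⟨k, by rw [hw2, hk, two_mul]⟩
    obtain ⟨k, hk⟩ := o1.add_odd o2
    refine ⟨k, ?_⟩
    rw [map_mul, hw1, hw2, ← WithZero.exp_add, hk, two_mul]
  obtain ⟨y, hy⟩ := hSel (δ₁ * δ₂) (mul_ne_zero hδ10 hδ20)
    (hpos (x₁ * x₂) (δ₁ * δ₂) hx12 hcx hδ12) (fun v => by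
      by_cases hv : v = p
      · rw [hv]; exact hevp
      · exact heven (x₁ * x₂) (δ₁ * δ₂) hx12 hδ12 v hv)
  have hfix := hroot (x₁ * x₂) y (by rw [hy, hδ12])
  obtain ⟨σ, hσ⟩ : ∃ σ, ¬ (σ ∈ N₁ ↔ σ ∈ N₂) := by
    by_contra h
    push Not at h
    exact hne (Subgroup.ext h)
  have e1 := hfix σ
  rw [map_mul] at e1
  by_cases s1 : σ ∈ N₁
  · have s2 : σ ∉ N₂ := fun h => hσ (iff_of_true s1 h)
    rw [hf₁ σ s1, hg₂ σ s2, mul_neg] at e1
    exact hneg _ hx12 e1.symm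
  · have s2 : σ ∈ N₂ := by
      by_contra h
      exact hσ (iff_of_false s1 h)
    rw [hg₁ σ s1, hf₂ σ s2, neg_mul] at e1
    exact hneg _ hx12 e1.symm

end Pool.Agent.L7h99.SQ
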